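import Pool.Agent.H863R2.NL.Pow
import Pool.Agent.H863R2.NL.Inf

/-!
Critical bond percolation on the square lattice: the mean number of nested layers around the origin,
up to a bounded error.

`changes n ω` is the minimal number of colour changes of a path from the origin to the distance `n`,
i.e. the number of nested alternating (open / dual-open) layers around the origin.

Definitions (in `Pool.Agent.H974R2.Model`, `Pool.Agent.H974R2.Infinite`,
`Pool.Agent.H863R2.NL.Defs`): `sqLattice`, `bondLaw`, `hlf` (`= 1/2`), `openGraph`; `Pt`, `Corner`,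
`Free`, `Change`, `ReachIn`, `norm2`, `changes`.

Formalisation: see `MP_b3e76a_pr.NestingExponents` (starting repository, modules
`Pool.Agent.H863R2`).
-/

namespace Pool.Agent.Results.MP_b3e76a_pr.NestingMean

open MeasureTheory H974 Pool.Agent.H863R2.NL Filter
open scoped Real Topology

theorem result : ∃ C : ℝ, ∀ n : ℕ, 1 ≤ n →
    |(∫ ω, (changes n ω : ℝ) ∂(bondLaw hlf)) - Real.log n / (2 * √3 * π)| ≤ C := by
  obtain ⟨C, hC⟩ := ET_mean
  refine ⟨C, fun n hn => ?_⟩
  have e : cN * Real.log n = Real.log n / (2 * √3 * π) := by
    unfold cN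
    ring
  rw [← e, int_changes n (fun m => (m : ℝ))]
  exact hC n hn

end Pool.Agent.Results.MP_b3e76a_pr.NestingMean
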